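import Pool.Agent.Lib_helper99.ISD3

set_option autoImplicit false

open MeasureTheory Set Filter Topology ProbabilityTheory
open scoped ENNReal

namespace Pool.Agent.Results.MP_dbe012_pr.PosedDirectionFails

open Pool.Agent.Lib_helper99.ISD

/-- the law of `X`: `-1` with probability `2/3`, `2` with probability `1/3` -/
noncomputable def lawX : Measure ℝ :=
  ENNReal.ofReal (2 / 3) • Measure.dirac (-1) + ENNReal.ofReal (1 / 3) • Measure.dirac 2

/-- the law of `Y = -X`: `1` with probability `2/3`, `-2` with probability `1/3` -/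
noncomputable def lawY : Measure ℝ :=
  ENNReal.ofReal (2 / 3) • Measure.dirac 1 + ENNReal.ofReal (1 / 3) • Measure.dirac (-2)

lemma ofReal_add_one : ENNReal.ofReal (2 / 3) + ENNReal.ofReal (1 / 3) = 1 := by
  rw [← ENNReal.ofReal_add (by norm_num) (by norm_num)]
  norm_num

lemma two_univ (a b : ℝ) : (ENNReal.ofReal (2 / 3) • Measure.dirac a +
    ENNReal.ofReal (1 / 3) • Measure.dirac b) univ = 1 := by
  simp only [Measure.add_apply, Measure.smul_apply, smul_eq_mul, measure_univ, mul_one]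
  exact ofReal_add_one

instance : IsProbabilityMeasure lawX := ⟨two_univ _ _⟩
instance : IsProbabilityMeasure lawY := ⟨two_univ _ _⟩

lemma integrable_lawX : Integrable (fun x : ℝ => x) lawX := by
  unfold lawX
  refine Integrable.add_measure ?_ ?_ <;>
  · refine Integrable.smul_measure ?_ (by simp)
    exact integrable_dirac (by simp)

lemma integrable_lawY : Integrable (fun x : ℝ => x) lawY := by
  unfold lawY
  refine Integrable.add_measure ?_ ?_ <;>
  · refine Integrable.smul_measure ?_ (by simp)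
    exact integrable_dirac (by simp)

lemma lawX_real_Ici : lawX.real (Ici 2) = 1 / 3 := by
  have h : lawX (Ici 2) = ENNReal.ofReal (1 / 3) := by
    simp only [lawX, Measure.add_apply, Measure.smul_apply, smul_eq_mul,
      Measure.dirac_apply' _ measurableSet_Ici]
    rw [indicator_of_notMem (by simp; norm_num), indicator_of_mem (by simp)]
    simp
  rw [measureReal_def, h, ENNReal.toReal_ofReal (by norm_num)]

lemma lawY_real_Ici : lawY.real (Ici 1) = 2 / 3 := by
  have h : lawY (Ici 1) = ENNReal.ofReal (2 / 3) := by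
    simp only [lawY, Measure.add_apply, Measure.smul_apply, smul_eq_mul,
      Measure.dirac_apply' _ measurableSet_Ici]
    rw [indicator_of_mem (by simp), indicator_of_notMem (by simp; norm_num)]
    simp
  rw [measureReal_def, h, ENNReal.toReal_ofReal (by norm_num)]

lemma ae_lawX : ∀ᵐ x ∂lawX, x = -1 ∨ x = 2 ∨ x = 2 := by
  unfold lawX
  rw [ae_add_measure_iff]
  constructor
  · refine Measure.ae_smul_measure ?_ _
    rw [ae_dirac_iff (by measurability)]
    simp
  · refine Measure.ae_smul_measure ?_ _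
    rw [ae_dirac_iff (by measurability)]
    simp

lemma ae_lawY : ∀ᵐ x ∂lawY, x = -2 ∨ x = 1 ∨ x = 1 := by
  unfold lawY
  rw [ae_add_measure_iff]
  constructor
  · refine Measure.ae_smul_measure ?_ _
    rw [ae_dirac_iff (by measurability)]
    simp
  · refine Measure.ae_smul_measure ?_ _
    rw [ae_dirac_iff (by measurability)]
    simp

lemma meanMin_lawX (k : ℕ) (hk : 1 ≤ k) : meanMin lawX k = -1 + 3 * (1 / 3) ^ k := by
  rw [meanMin_three lawX k hk (-1) 2 2 (by norm_num) le_rfl ae_lawX, lawX_real_Ici]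
  ring

lemma meanMin_lawY (k : ℕ) (hk : 1 ≤ k) : meanMin lawY k = -2 + 3 * (2 / 3) ^ k := by
  rw [meanMin_three lawY k hk (-2) 1 1 (by norm_num) le_rfl ae_lawY, lawY_real_Ici]
  ring

section main

variable (ρ : Measure ℝ) [IsProbabilityMeasure ρ]

lemma survX (x : ℝ) : surv (lawX ∗ ρ) x = 2 / 3 * surv ρ (x + 1) + 1 / 3 * surv ρ (x - 2) := by
  unfold surv
  have h : (lawX ∗ ρ).real (Iic x) = 2 / 3 * ρ.real (Iic (x + 1)) + 1 / 3 * ρ.real (Iic (x - 2)) := by
    rw [measureReal_def, lawX, conv_two, ENNReal.toReal_add (by finiteness) (by finiteness),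
      ENNReal.toReal_mul, ENNReal.toReal_mul, ENNReal.toReal_ofReal (by norm_num),
      ENNReal.toReal_ofReal (by norm_num), sub_neg_eq_add]
    rfl
  rw [h]; ring

lemma survY (x : ℝ) : surv (lawY ∗ ρ) x = 2 / 3 * surv ρ (x - 1) + 1 / 3 * surv ρ (x + 2) := by
  unfold surv
  have h : (lawY ∗ ρ).real (Iic x) = 2 / 3 * ρ.real (Iic (x - 1)) + 1 / 3 * ρ.real (Iic (x + 2)) := by
    rw [measureReal_def, lawY, conv_two, ENNReal.toReal_add (by finiteness) (by finiteness),
      ENNReal.toReal_mul, ENNReal.toReal_mul, ENNReal.toReal_ofReal (by norm_num),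
      ENNReal.toReal_ofReal (by norm_num), sub_neg_eq_add]
    rfl
  rw [h]; ring

lemma cube_antitone (μ : Measure ℝ) [IsProbabilityMeasure μ] : Antitone (fun x => surv μ x ^ 3) :=
  fun _ _ h => pow_le_pow_left₀ (surv_nonneg μ _) (surv_antitone μ h) 3

lemma cube_atBot (μ : Measure ℝ) [IsProbabilityMeasure μ] :
    Tendsto (fun x => surv μ x ^ 3) atBot (𝓝 1) := by
  simpa using (surv_atBot μ).pow 3

lemma cube_atTop (μ : Measure ℝ) [IsProbabilityMeasure μ] :
    Tendsto (fun x => surv μ x ^ 3) atTop (𝓝 0) := by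
  simpa using (surv_atTop μ).pow 3

/-- The key identity: the third mean-minimum functional of `X + Z` exceeds that of `Y + Z`
by `(2/27) ∫ P(x < Z ≤ x + 3)^3 dx`. -/
lemma key : 0 < ∫ x, (surv (lawX ∗ ρ) x ^ 3 - surv (lawY ∗ ρ) x ^ 3) := by
  obtain ⟨ia, ea⟩ := shift_aux (cube_antitone (lawX ∗ ρ)) (cube_atBot _) (cube_atTop _) 2
    (by norm_num)
  obtain ⟨ib, eb⟩ := shift_aux (cube_antitone (lawY ∗ ρ)) (cube_atBot _) (cube_atTop _) 1
    (by norm_num)
  obtain ⟨ic, ec⟩ := shift_aux (cube_antitone ρ) (cube_atBot _) (cube_atTop _) 3 (by norm_num)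
  obtain ⟨id1, ed⟩ := shift_aux (surv_antitone ρ) (surv_atBot _) (surv_atTop _) 3 (by norm_num)
  -- the cubes of the increments of `ρ`
  have hd0 : ∀ x, 0 ≤ surv ρ x - surv ρ (x + 3) := by
    intro x
    have := surv_antitone ρ (show x ≤ x + 3 by linarith)
    linarith
  have hd1 : ∀ x, surv ρ x - surv ρ (x + 3) ≤ 1 := by
    intro x
    have h1 := surv_le_one ρ x
    have h2 := surv_nonneg ρ (x + 3)
    linarith
  have iw : Integrable (fun x => (surv ρ x - surv ρ (x + 3)) ^ 3) := by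
    refine id1.mono' ?_ ?_
    · exact (id1.aestronglyMeasurable.pow 3)
    · refine ae_of_all _ fun x => ?_
      rw [Real.norm_eq_abs, abs_of_nonneg (pow_nonneg (hd0 x) 3)]
      calc (surv ρ x - surv ρ (x + 3)) ^ 3 ≤ (surv ρ x - surv ρ (x + 3)) ^ 1 :=
            pow_le_pow_of_le_one (hd0 x) (hd1 x) (by norm_num)
        _ = _ := pow_one _
  have hpos : 0 < ∫ x, (surv ρ x - surv ρ (x + 3)) ^ 3 := by
    rcases (integral_nonneg (μ := volume) (f := fun x => (surv ρ x - surv ρ (x + 3)) ^ 3)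
      (fun x => pow_nonneg (hd0 x) 3)).lt_or_eq with h | h
    · exact h
    · exfalso
      have h0 := (integral_eq_zero_iff_of_nonneg (fun x => pow_nonneg (hd0 x) 3) iw).1 h.symm
      have h1 : ∫ x, (surv ρ x - surv ρ (x + 3)) = 0 := by
        refine integral_eq_zero_of_ae ?_
        filter_upwards [h0] with x hx
        simp only [Pi.zero_apply] at hx ⊢
        exact pow_eq_zero_iff (by norm_num) |>.1 hx
      rw [ed] at h1
      norm_num at h1
  -- algebra
  have hT : ∀ x, surv (lawX ∗ ρ) (x + 2) ^ 3 - surv (lawY ∗ ρ) (x + 1) ^ 3 =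
      -(1 / 3) * (surv ρ x ^ 3 - surv ρ (x + 3) ^ 3) +
        2 / 27 * (surv ρ x - surv ρ (x + 3)) ^ 3 := by
    intro x
    rw [survX, survY]
    have e1 : x + 2 + 1 = x + 3 := by ring
    have e2 : x + 2 - 2 = x := by ring
    have e3 : x + 1 - 1 = x := by ring
    have e4 : x + 1 + 2 = x + 3 := by ring
    rw [e1, e2, e3, e4]
    ring
  have iT : Integrable (fun x => surv (lawX ∗ ρ) (x + 2) ^ 3 - surv (lawY ∗ ρ) (x + 1) ^ 3) := by
    have := (ic.const_mul (-(1 / 3) : ℝ)).add (iw.const_mul (2 / 27 : ℝ))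
    refine this.congr (ae_of_all _ fun x => ?_)
    simp only [Pi.add_apply]
    rw [hT x]
  have eT : ∫ x, (surv (lawX ∗ ρ) (x + 2) ^ 3 - surv (lawY ∗ ρ) (x + 1) ^ 3) =
      -1 + 2 / 27 * ∫ x, (surv ρ x - surv ρ (x + 3)) ^ 3 := by
    simp only [hT]
    rw [integral_add (ic.const_mul _) (iw.const_mul _), integral_const_mul, integral_const_mul, ec]
    ring
  have hdec : ∀ x, surv (lawX ∗ ρ) x ^ 3 - surv (lawY ∗ ρ) x ^ 3 =
      (surv (lawX ∗ ρ) x ^ 3 - surv (lawX ∗ ρ) (x + 2) ^ 3) -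
      (surv (lawY ∗ ρ) x ^ 3 - surv (lawY ∗ ρ) (x + 1) ^ 3) +
      (surv (lawX ∗ ρ) (x + 2) ^ 3 - surv (lawY ∗ ρ) (x + 1) ^ 3) := by
    intro x; ring
  have iab : Integrable (fun x => (surv (lawX ∗ ρ) x ^ 3 - surv (lawX ∗ ρ) (x + 2) ^ 3) -
      (surv (lawY ∗ ρ) x ^ 3 - surv (lawY ∗ ρ) (x + 1) ^ 3)) := ia.sub ib
  simp only [hdec]
  rw [integral_add iab iT, integral_sub ia ib, ea, eb, eT]
  linarith

end main

/-- There are laws `μ` (of `X`) and `ν` (of `Y`) with finite mean such that `μ_{1:k}` agree for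
`k = 1, 2` and `μ_{1:3}` is larger for `X`, but no integrable independent noise `Z` gives
`X + Z <_3^- Y + Z`. -/
theorem result :
    ∃ μ ν : Measure ℝ, IsProbabilityMeasure μ ∧ IsProbabilityMeasure ν ∧
      Integrable (fun x : ℝ => x) μ ∧ Integrable (fun x : ℝ => x) ν ∧
      (∀ k : ℕ, 1 ≤ k → k ≤ 2 → meanMin μ k = meanMin ν k) ∧
      meanMin ν 3 < meanMin μ 3 ∧
      ∀ ρ : Measure ℝ, IsProbabilityMeasure ρ → Integrable (fun x : ℝ => x) ρ →
        ¬ InvDomLT 3 (μ ∗ ρ) (ν ∗ ρ) := by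
  refine ⟨lawX, lawY, inferInstance, inferInstance, integrable_lawX,
    integrable_lawY, ?_, ?_, ?_⟩
  · intro k hk1 hk2
    rw [meanMin_lawX k hk1, meanMin_lawY k hk1]
    have : k = 1 ∨ k = 2 := by omega
    rcases this with rfl | rfl <;> norm_num
  · rw [meanMin_lawX 3 (by norm_num), meanMin_lawY 3 (by norm_num)]
    norm_num
  · intro ρ hρ1 hρ2 hdom
    have hW := integrable_conv ρ lawX integrable_lawX hρ2
    have hV := integrable_conv ρ lawY integrable_lawY hρ2
    have h1 := integral_powDiff_le_zero_of_le (lawX ∗ ρ) (lawY ∗ ρ) 1 hW hV hdom.1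
    have hpd : (fun x => powDiff (lawX ∗ ρ) (lawY ∗ ρ) 3 1 x) =
        fun x => 1 / 6 * (surv (lawX ∗ ρ) x ^ 3 - surv (lawY ∗ ρ) x ^ 3) := by
      funext x
      have ha := surv_nonneg (lawX ∗ ρ) x
      have hb := surv_nonneg (lawY ∗ ρ) x
      unfold powDiff
      unfold surv at ha hb ⊢
      rw [max_eq_left ha, max_eq_left hb]
      simp only [Nat.factorial]
      push_cast
      ring
    rw [hpd] at h1
    have h4 := key ρ
    rw [integral_const_mul] at h1
    linarith

end Pool.Agent.Results.MP_dbe012_pr.PosedDirectionFails
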