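import Pool.Agent.Lib_helper99.ISD3

set_option autoImplicit false

open MeasureTheory Set Filter Topology ProbabilityTheory
open scoped ENNReal

namespace Pool.Agent.Results.MP_dbe012_pr.ReversedDirectionFails

open Pool.Agent.Lib_helper99.ISD

/-- the law of `X`: `-27, 0, 27` with probabilities `1/9, 7/9, 1/9` -/
noncomputable def lawX : Measure ℝ :=
  ENNReal.ofReal (1 / 9) • Measure.dirac (-27) + ENNReal.ofReal (7 / 9) • Measure.dirac 0 +
    ENNReal.ofReal (1 / 9) • Measure.dirac 27

/-- the law of `Y`: `-16, 8` with probabilities `1/3, 2/3` -/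
noncomputable def lawY : Measure ℝ :=
  ENNReal.ofReal (1 / 3) • Measure.dirac (-16) + ENNReal.ofReal (2 / 3) • Measure.dirac 8

instance : IsProbabilityMeasure lawX := ⟨by
  simp only [lawX, Measure.add_apply, Measure.smul_apply, smul_eq_mul, measure_univ, mul_one]
  rw [← ENNReal.ofReal_add (by norm_num) (by norm_num),
    ← ENNReal.ofReal_add (by norm_num) (by norm_num)]
  norm_num⟩

instance : IsProbabilityMeasure lawY := ⟨by
  simp only [lawY, Measure.add_apply, Measure.smul_apply, smul_eq_mul, measure_univ, mul_one]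
  rw [← ENNReal.ofReal_add (by norm_num) (by norm_num)]
  norm_num⟩

lemma integrable_lawX : Integrable (fun x : ℝ => x) lawX := by
  unfold lawX
  refine Integrable.add_measure (Integrable.add_measure ?_ ?_) ?_ <;>
  · refine Integrable.smul_measure ?_ (by simp)
    exact integrable_dirac (by simp)

lemma integrable_lawY : Integrable (fun x : ℝ => x) lawY := by
  unfold lawY
  refine Integrable.add_measure ?_ ?_ <;>
  · refine Integrable.smul_measure ?_ (by simp)
    exact integrable_dirac (by simp)

/-- indicator of a strict inequality -/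
noncomputable def ind (x a : ℝ) : ℝ := if x < a then 1 else 0

/-- survival function of `X` -/
noncomputable def sX (y : ℝ) : ℝ := 1 / 9 * ind y (-27) + 7 / 9 * ind y 0 + 1 / 9 * ind y 27

/-- survival function of `Y` -/
noncomputable def sY (y : ℝ) : ℝ := 1 / 3 * ind y (-16) + 2 / 3 * ind y 8

lemma dirac_real_Iic (a x : ℝ) : (Measure.dirac a).real (Iic x) = 1 - ind x a := by
  rw [measureReal_def, Measure.dirac_apply' _ measurableSet_Iic]
  unfold ind
  by_cases h : x < a
  · rw [indicator_of_notMem (by simpa using h)]; simp [h]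
  · rw [indicator_of_mem (by simpa using h)]; simp [h]

lemma lawX_real_Iic (x : ℝ) : lawX.real (Iic x) = 1 - sX x := by
  have h : ∀ a : ℝ, ((Measure.dirac a) (Iic x)).toReal = 1 - ind x a :=
    fun a => dirac_real_Iic a x
  rw [measureReal_def, lawX]
  simp only [Measure.add_apply, Measure.smul_apply, smul_eq_mul]
  rw [ENNReal.toReal_add (by finiteness) (by finiteness),
    ENNReal.toReal_add (by finiteness) (by finiteness), ENNReal.toReal_mul, ENNReal.toReal_mul,
    ENNReal.toReal_mul, ENNReal.toReal_ofReal (by norm_num), ENNReal.toReal_ofReal (by norm_num),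
    h, h, h]
  unfold sX
  ring

lemma lawY_real_Iic (x : ℝ) : lawY.real (Iic x) = 1 - sY x := by
  have h : ∀ a : ℝ, ((Measure.dirac a) (Iic x)).toReal = 1 - ind x a :=
    fun a => dirac_real_Iic a x
  rw [measureReal_def, lawY]
  simp only [Measure.add_apply, Measure.smul_apply, smul_eq_mul]
  rw [ENNReal.toReal_add (by finiteness) (by finiteness), ENNReal.toReal_mul, ENNReal.toReal_mul,
    ENNReal.toReal_ofReal (by norm_num), ENNReal.toReal_ofReal (by norm_num), h, h]
  unfold sY
  ring

/-! ### the mean minima -/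

lemma ae_lawX : ∀ᵐ x ∂lawX, x = -27 ∨ x = 0 ∨ x = 27 := by
  unfold lawX
  rw [ae_add_measure_iff, ae_add_measure_iff]
  refine ⟨⟨?_, ?_⟩, ?_⟩ <;>
  · refine Measure.ae_smul_measure ?_ _
    rw [ae_dirac_iff (by measurability)]
    simp

lemma ae_lawY : ∀ᵐ x ∂lawY, x = -16 ∨ x = 8 ∨ x = 8 := by
  unfold lawY
  rw [ae_add_measure_iff]
  refine ⟨?_, ?_⟩ <;>
  · refine Measure.ae_smul_measure ?_ _
    rw [ae_dirac_iff (by measurability)]
    simp

lemma lawX_real_Ici0 : lawX.real (Ici 0) = 8 / 9 := by
  have h : lawX (Ici 0) = ENNReal.ofReal (8 / 9) := by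
    simp only [lawX, Measure.add_apply, Measure.smul_apply, smul_eq_mul,
      Measure.dirac_apply' _ measurableSet_Ici]
    rw [indicator_of_notMem (by simp), indicator_of_mem (by simp), indicator_of_mem (by simp)]
    simp only [mul_zero, Pi.one_apply, mul_one, zero_add]
    rw [← ENNReal.ofReal_add (by norm_num) (by norm_num)]
    congr 1
    norm_num
  rw [measureReal_def, h, ENNReal.toReal_ofReal (by norm_num)]

lemma lawX_real_Ici27 : lawX.real (Ici 27) = 1 / 9 := by
  have h : lawX (Ici 27) = ENNReal.ofReal (1 / 9) := by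
    simp only [lawX, Measure.add_apply, Measure.smul_apply, smul_eq_mul,
      Measure.dirac_apply' _ measurableSet_Ici]
    rw [indicator_of_notMem (by simp; try norm_num), indicator_of_notMem (by simp; try norm_num),
      indicator_of_mem (by simp)]
    simp only [mul_zero, Pi.one_apply, mul_one, zero_add]
  rw [measureReal_def, h, ENNReal.toReal_ofReal (by norm_num)]

lemma lawY_real_Ici8 : lawY.real (Ici 8) = 2 / 3 := by
  have h : lawY (Ici 8) = ENNReal.ofReal (2 / 3) := by
    simp only [lawY, Measure.add_apply, Measure.smul_apply, smul_eq_mul,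
      Measure.dirac_apply' _ measurableSet_Ici]
    rw [indicator_of_notMem (by simp; norm_num), indicator_of_mem (by simp)]
    simp only [mul_zero, Pi.one_apply, mul_one, zero_add]
  rw [measureReal_def, h, ENNReal.toReal_ofReal (by norm_num)]

lemma meanMin_lawX (k : ℕ) (hk : 1 ≤ k) :
    meanMin lawX k = -27 + 27 * (8 / 9) ^ k + 27 * (1 / 9) ^ k := by
  rw [meanMin_three lawX k hk (-27) 0 27 (by norm_num) (by norm_num) ae_lawX, lawX_real_Ici0,
    lawX_real_Ici27]
  ring

lemma meanMin_lawY (k : ℕ) (hk : 1 ≤ k) : meanMin lawY k = -16 + 24 * (2 / 3) ^ k := by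
  rw [meanMin_three lawY k hk (-16) 8 8 (by norm_num) (by norm_num) ae_lawY, lawY_real_Ici8]
  ring

/-! ### convolutions -/

lemma conv_real_Iic (μ ρ : Measure ℝ) [IsProbabilityMeasure μ] [IsProbabilityMeasure ρ] (x : ℝ) :
    (μ ∗ ρ).real (Iic x) = ∫ z, μ.real (Iic (x - z)) ∂ρ := by
  rw [measureReal_def, Measure.conv, Measure.map_apply (by fun_prop) measurableSet_Iic,
    Measure.prod_apply_symm (by measurability)]
  have h : ∀ z : ℝ, (fun y : ℝ => (y, z)) ⁻¹' ((fun w : ℝ × ℝ => w.1 + w.2) ⁻¹' Iic x)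
      = Iic (x - z) := by
    intro z; ext y
    simp only [mem_preimage, mem_Iic]
    constructor <;> intro h <;> linarith
  simp only [h]
  rw [integral_eq_lintegral_of_nonneg_ae (ae_of_all _ fun z => measureReal_nonneg)]
  · congr 1
    refine lintegral_congr fun z => ?_
    rw [ofReal_measureReal]
  · refine Measurable.aestronglyMeasurable ?_
    exact (measurable_real_Iic μ).comp (measurable_const.sub measurable_id)

lemma ind_nonneg (x a : ℝ) : 0 ≤ ind x a := by unfold ind; split_ifs <;> norm_num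
lemma ind_le_one (x a : ℝ) : ind x a ≤ 1 := by unfold ind; split_ifs <;> norm_num

lemma measurable_ind (a : ℝ) : Measurable (fun x => ind x a) := by
  unfold ind
  exact Measurable.ite measurableSet_Iio measurable_const measurable_const

lemma measurable_sX : Measurable sX := by
  unfold sX
  have := measurable_ind
  exact (((this _).const_mul _).add ((this _).const_mul _)).add ((this _).const_mul _)

lemma measurable_sY : Measurable sY := by
  unfold sY
  have := measurable_ind
  exact (((this _).const_mul _).add ((this _).const_mul _))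

lemma sX_nonneg (y : ℝ) : 0 ≤ sX y := by
  unfold sX
  have h1 := ind_nonneg y (-27); have h2 := ind_nonneg y 0; have h3 := ind_nonneg y 27
  linarith
lemma sX_le_one (y : ℝ) : sX y ≤ 1 := by
  unfold sX
  have h1 := ind_le_one y (-27); have h2 := ind_le_one y 0; have h3 := ind_le_one y 27
  linarith
lemma sY_nonneg (y : ℝ) : 0 ≤ sY y := by
  unfold sY
  have h1 := ind_nonneg y (-16); have h3 := ind_nonneg y 8
  linarith
lemma sY_le_one (y : ℝ) : sY y ≤ 1 := by
  unfold sY
  have h1 := ind_le_one y (-16); have h3 := ind_le_one y 8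
  linarith

lemma sX_lo {y : ℝ} (h : y < -27) : sX y = 1 := by
  unfold sX ind
  rw [if_pos h, if_pos (by linarith), if_pos (by linarith)]; norm_num
lemma sX_hi {y : ℝ} (h : 27 ≤ y) : sX y = 0 := by
  unfold sX ind
  rw [if_neg (by linarith), if_neg (by linarith), if_neg (by linarith)]; norm_num
lemma sX_mid {y : ℝ} (h : -27 ≤ y) : sX y ≤ 8 / 9 := by
  unfold sX
  have h0 : ind y (-27) = 0 := by unfold ind; rw [if_neg (by linarith)]
  have h2 := ind_le_one y 0; have h3 := ind_le_one y 27
  rw [h0]; linarith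
lemma sY_lo {y : ℝ} (h : y < -16) : sY y = 1 := by
  unfold sY ind
  rw [if_pos h, if_pos (by linarith)]; norm_num
lemma sY_hi {y : ℝ} (h : 8 ≤ y) : sY y = 0 := by
  unfold sY ind
  rw [if_neg (by linarith), if_neg (by linarith)]; norm_num
lemma sY_mid {y : ℝ} (h : -16 ≤ y) : sY y ≤ 2 / 3 := by
  unfold sY
  have h0 : ind y (-16) = 0 := by unfold ind; rw [if_neg (by linarith)]
  have h3 := ind_le_one y 8
  rw [h0]; linarith

/-! ### the bilinear kernel -/

/-- the integrand -/
noncomputable def k2 (x z w : ℝ) : ℝ := sX (x - z) * sX (x - w) - sY (x - z) * sY (x - w)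

/-- the value of `∫ k2 x z w dx` -/
noncomputable def K (z w : ℝ) : ℝ :=
  (18 * max (24 - |z - w|) 0 - 14 * max (27 - |z - w|) 0 - max (54 - |z - w|) 0) / 81

lemma K_nonpos (z w : ℝ) : K z w ≤ 0 := by
  unfold K
  have hd : 0 ≤ |z - w| := abs_nonneg _
  set d := |z - w|
  rcases le_total d 24 with h1 | h1
  · rw [max_eq_left (by linarith), max_eq_left (by linarith), max_eq_left (by linarith)]
    linarith
  · rw [max_eq_right (by linarith)]
    have h2 : 0 ≤ max (27 - d) 0 := le_max_right _ _
    have h3 : 0 ≤ max (54 - d) 0 := le_max_right _ _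
    linarith

lemma K_eq_zero {z w : ℝ} (h : K z w = 0) : z = w ∨ 54 ≤ |z - w| := by
  by_contra hcon
  push Not at hcon
  obtain ⟨h1, h2⟩ := hcon
  have hd : 0 < |z - w| := abs_pos.2 (sub_ne_zero.2 h1)
  unfold K at h
  set d := |z - w|
  rcases le_total d 24 with h3 | h3
  · rw [max_eq_left (by linarith), max_eq_left (by linarith), max_eq_left (by linarith)] at h
    linarith
  · rw [max_eq_right (by linarith : 24 - d ≤ 0)] at h
    have h4 : 0 ≤ max (27 - d) 0 := le_max_right _ _
    have h5 : 54 - d ≤ max (54 - d) 0 := le_max_left _ _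
    linarith

lemma ind_mul_ind (x a b : ℝ) : ind x a * ind x b = ind x (min a b) := by
  unfold ind
  by_cases h1 : x < a <;> by_cases h2 : x < b <;> simp [h1, h2]

lemma ind_sub (x z a : ℝ) : ind (x - z) a = ind x (z + a) := by
  unfold ind
  congr 1
  apply propext
  constructor <;> intro h <;> linarith

/-- a combination of indicators -/
noncomputable def comb (L : List (ℝ × ℝ)) (x : ℝ) : ℝ :=
  (L.map fun p => p.1 * (ind x p.2 - ind x 0)).sum

lemma integrable_ind_sub (a b : ℝ) : Integrable (fun x => ind x a - ind x b) :=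
  integrable_indDiff a b

lemma integral_ind_sub (a : ℝ) : ∫ x, (ind x a - ind x 0) = a := by
  have := integral_indDiff a 0
  unfold ind
  rw [this]; ring

lemma comb_spec (L : List (ℝ × ℝ)) :
    Integrable (comb L) ∧ ∫ x, comb L x = (L.map fun p => p.1 * p.2).sum := by
  induction L with
  | nil =>
    constructor
    · have : comb [] = fun _ => (0 : ℝ) := by funext x; simp [comb]
      rw [this]; exact integrable_zero _ _ _
    · simp [comb]
  | cons p L ih =>
    have h1 : Integrable (fun x => p.1 * (ind x p.2 - ind x 0)) :=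
      (integrable_ind_sub _ _).const_mul _
    have h2 : comb (p :: L) = fun x => p.1 * (ind x p.2 - ind x 0) + comb L x := by
      funext x; simp [comb]
    constructor
    · rw [h2]; exact h1.add ih.1
    · rw [h2, integral_add h1 ih.1, ih.2, integral_const_mul, integral_ind_sub]
      simp

/-- the list of coefficients and thresholds -/
noncomputable def kList (z w : ℝ) : List (ℝ × ℝ) :=
  [(1 / 81, min (z - 27) (w - 27)), (7 / 81, min (z - 27) w), (1 / 81, min (z - 27) (w + 27)),
   (7 / 81, min z (w - 27)), (49 / 81, min z w), (7 / 81, min z (w + 27)),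
   (1 / 81, min (z + 27) (w - 27)), (7 / 81, min (z + 27) w), (1 / 81, min (z + 27) (w + 27)),
   (-(1 / 9), min (z - 16) (w - 16)), (-(2 / 9), min (z - 16) (w + 8)),
   (-(2 / 9), min (z + 8) (w - 16)), (-(4 / 9), min (z + 8) (w + 8))]

lemma k2_expand (z w : ℝ) : (fun x => k2 x z w) = comb (kList z w) := by
  funext x
  unfold k2 sX sY comb kList
  simp only [ind_sub, ← sub_eq_add_neg, add_zero, List.map_cons, List.map_nil, List.sum_cons,
    List.sum_nil, ← ind_mul_ind]
  ring

lemma integrable_k2 (z w : ℝ) : Integrable (fun x => k2 x z w) := by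
  rw [k2_expand]; exact (comb_spec _).1

lemma integral_k2_aux {z w : ℝ} (h : z ≤ w) :
    ((kList z w).map fun p => p.1 * p.2).sum = K z w := by
  unfold kList K
  simp only [List.map_cons, List.map_nil, List.sum_cons, List.sum_nil]
  have habs : |z - w| = w - z := by rw [abs_of_nonpos (by linarith)]; ring
  rw [habs, min_eq_left (by linarith : z - 27 ≤ w - 27), min_eq_left (by linarith : z - 27 ≤ w),
    min_eq_left (by linarith : z - 27 ≤ w + 27), min_eq_left h,
    min_eq_left (by linarith : z ≤ w + 27), min_eq_left (by linarith : z + 27 ≤ w + 27),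
    min_eq_left (by linarith : z - 16 ≤ w - 16), min_eq_left (by linarith : z - 16 ≤ w + 8),
    min_eq_left (by linarith : z + 8 ≤ w + 8)]
  rcases le_total (w - z) 24 with h1 | h1
  · rw [min_eq_right (by linarith : w - 27 ≤ z), min_eq_right (by linarith : w - 27 ≤ z + 27),
      min_eq_right (by linarith : w ≤ z + 27), min_eq_right (by linarith : w - 16 ≤ z + 8),
      max_eq_left (by linarith), max_eq_left (by linarith), max_eq_left (by linarith)]
    ring
  · rw [min_eq_left (by linarith : z + 8 ≤ w - 16), max_eq_right (by linarith : 24 - (w - z) ≤ 0)]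
    rcases le_total (w - z) 27 with h2 | h2
    · rw [min_eq_right (by linarith : w - 27 ≤ z), min_eq_right (by linarith : w - 27 ≤ z + 27),
        min_eq_right (by linarith : w ≤ z + 27),
        max_eq_left (by linarith), max_eq_left (by linarith)]
      ring
    · rw [min_eq_left (by linarith : z ≤ w - 27), min_eq_left (by linarith : z + 27 ≤ w),
        max_eq_right (by linarith : 27 - (w - z) ≤ 0)]
      rcases le_total (w - z) 54 with h3 | h3
      · rw [min_eq_right (by linarith : w - 27 ≤ z + 27), max_eq_left (by linarith)]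
        ring
      · rw [min_eq_left (by linarith : z + 27 ≤ w - 27), max_eq_right (by linarith)]
        ring

lemma k2_symm (x z w : ℝ) : k2 x z w = k2 x w z := by unfold k2; ring
lemma K_symm (z w : ℝ) : K z w = K w z := by unfold K; rw [abs_sub_comm]

lemma integral_k2 (z w : ℝ) : ∫ x, k2 x z w = K z w := by
  rcases le_total z w with h | h
  · rw [k2_expand, (comb_spec _).2, integral_k2_aux h]
  · simp only [k2_symm _ z w]
    rw [k2_expand, (comb_spec _).2, integral_k2_aux h, K_symm]

lemma measurable_k2 : Measurable (fun q : ℝ × (ℝ × ℝ) => k2 q.1 q.2.1 q.2.2) := by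
  unfold k2
  have h1 : Measurable (fun q : ℝ × (ℝ × ℝ) => q.1 - q.2.1) := by fun_prop
  have h2 : Measurable (fun q : ℝ × (ℝ × ℝ) => q.1 - q.2.2) := by fun_prop
  exact ((measurable_sX.comp h1).mul (measurable_sX.comp h2)).sub
    ((measurable_sY.comp h1).mul (measurable_sY.comp h2))

lemma abs_k2_le (x z w : ℝ) : |k2 x z w| ≤
    (Ico (min z w - 27) (min z w + 27)).indicator (fun _ => (1 : ℝ)) x := by
  by_cases hx : x ∈ Ico (min z w - 27) (min z w + 27)
  · rw [indicator_of_mem hx]
    unfold k2
    have h1 := mul_nonneg (sX_nonneg (x - z)) (sX_nonneg (x - w))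
    have h2 := mul_nonneg (sY_nonneg (x - z)) (sY_nonneg (x - w))
    have h3 := mul_le_one₀ (sX_le_one (x - z)) (sX_nonneg (x - w)) (sX_le_one (x - w))
    have h4 := mul_le_one₀ (sY_le_one (x - z)) (sY_nonneg (x - w)) (sY_le_one (x - w))
    rw [abs_le]
    constructor <;> linarith
  · rw [indicator_of_notMem hx]
    simp only [mem_Ico, not_and, not_lt] at hx
    have : k2 x z w = 0 := by
      unfold k2
      rcases lt_or_ge x (min z w - 27) with h | h
      · have hz : x - z < -27 := by linarith [min_le_left z w]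
        have hw : x - w < -27 := by linarith [min_le_right z w]
        rw [sX_lo hz, sX_lo hw, sY_lo (by linarith), sY_lo (by linarith)]
        ring
      · have h' := hx h
        rcases le_total z w with hzw | hzw
        · rw [min_eq_left hzw] at h'
          rw [sX_hi (by linarith : 27 ≤ x - z), sY_hi (by linarith : 8 ≤ x - z)]
          ring
        · rw [min_eq_right hzw] at h'
          rw [sX_hi (by linarith : 27 ≤ x - w), sY_hi (by linarith : 8 ≤ x - w)]
          ring
    rw [this, abs_zero]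

section bilinear

variable (ρ : Measure ℝ) [IsFiniteMeasure ρ]

lemma integrable_k2_prod :
    Integrable (fun q : ℝ × (ℝ × ℝ) => k2 q.1 q.2.1 q.2.2) (volume.prod (ρ.prod ρ)) := by
  rw [integrable_prod_iff' measurable_k2.aestronglyMeasurable]
  constructor
  · exact ae_of_all _ fun p => integrable_k2 p.1 p.2
  · refine (integrable_const (54 : ℝ)).mono' ?_ ?_
    · exact (StronglyMeasurable.integral_prod_left (μ := volume)
        (f := fun (x : ℝ) (p : ℝ × ℝ) => ‖k2 x p.1 p.2‖)
        measurable_k2.norm.stronglyMeasurable).aestronglyMeasurable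
    · refine ae_of_all _ fun p => ?_
      simp only [Real.norm_eq_abs]
      rw [abs_of_nonneg (integral_nonneg fun x => abs_nonneg _)]
      have h1 : ∫ x, |k2 x p.1 p.2| ≤
          ∫ x, (Ico (min p.1 p.2 - 27) (min p.1 p.2 + 27)).indicator (fun _ => (1 : ℝ)) x := by
        refine integral_mono (integrable_k2 _ _).abs ?_ (fun x => abs_k2_le x _ _)
        exact (integrable_indicator_iff measurableSet_Ico).2 (by simp)
      rw [integral_indicator measurableSet_Ico] at h1
      simp only [integral_const, MeasurableSet.univ, measureReal_restrict_apply, univ_inter,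
        smul_eq_mul, mul_one] at h1
      rw [measureReal_def, Real.volume_Ico, ENNReal.toReal_ofReal (by linarith)] at h1
      linarith

/-- `∫ s_X(x - z) ρ(dz)` -/
noncomputable def GX (x : ℝ) : ℝ := ∫ z, sX (x - z) ∂ρ
/-- `∫ s_Y(x - z) ρ(dz)` -/
noncomputable def GY (x : ℝ) : ℝ := ∫ z, sY (x - z) ∂ρ

lemma integrable_sX (x : ℝ) : Integrable (fun z => sX (x - z)) ρ := by
  refine (integrable_const (1 : ℝ)).mono' ?_ (ae_of_all _ fun z => ?_)
  · exact (measurable_sX.comp (measurable_const.sub measurable_id)).aestronglyMeasurable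
  · rw [Real.norm_eq_abs, abs_of_nonneg (sX_nonneg _)]; exact sX_le_one _

lemma integrable_sY (x : ℝ) : Integrable (fun z => sY (x - z)) ρ := by
  refine (integrable_const (1 : ℝ)).mono' ?_ (ae_of_all _ fun z => ?_)
  · exact (measurable_sY.comp (measurable_const.sub measurable_id)).aestronglyMeasurable
  · rw [Real.norm_eq_abs, abs_of_nonneg (sY_nonneg _)]; exact sY_le_one _

lemma inner_k2 (x : ℝ) : ∫ p : ℝ × ℝ, k2 x p.1 p.2 ∂(ρ.prod ρ) = GX ρ x ^ 2 - GY ρ x ^ 2 := by
  unfold k2 GX GY
  rw [integral_sub ((integrable_sX ρ x).mul_prod (integrable_sX ρ x))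
    ((integrable_sY ρ x).mul_prod (integrable_sY ρ x)),
    integral_prod_mul (fun z => sX (x - z)) (fun z => sX (x - z)),
    integral_prod_mul (fun z => sY (x - z)) (fun z => sY (x - z))]
  ring

lemma integrable_G_sq : Integrable (fun x => GX ρ x ^ 2 - GY ρ x ^ 2) := by
  have h := (integrable_k2_prod ρ).integral_prod_left
  refine h.congr (ae_of_all _ fun x => ?_)
  exact inner_k2 ρ x

lemma integral_G_sq : ∫ x, (GX ρ x ^ 2 - GY ρ x ^ 2) = ∫ p : ℝ × ℝ, K p.1 p.2 ∂(ρ.prod ρ) := by
  have h := integral_integral_swap (μ := volume) (ν := ρ.prod ρ)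
    (f := fun x p => k2 x p.1 p.2) (integrable_k2_prod ρ)
  simp only [integral_k2, inner_k2] at h
  exact h

/-- linear version of the kernel -/
lemma lin_expand (z : ℝ) : (fun x => sX (x - z) - sY (x - z)) =
    comb [(1 / 9, z - 27), (7 / 9, z), (1 / 9, z + 27), (-(1 / 3), z - 16), (-(2 / 3), z + 8)] := by
  funext x
  unfold sX sY comb
  simp only [ind_sub, ← sub_eq_add_neg, add_zero, List.map_cons, List.map_nil, List.sum_cons,
    List.sum_nil]
  ring

lemma integral_lin (z : ℝ) : ∫ x, (sX (x - z) - sY (x - z)) = 0 := by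
  rw [lin_expand, (comb_spec _).2]
  simp only [List.map_cons, List.map_nil, List.sum_cons, List.sum_nil]
  ring

lemma integrable_lin_prod :
    Integrable (fun q : ℝ × ℝ => sX (q.1 - q.2) - sY (q.1 - q.2)) (volume.prod ρ) := by
  have hm : Measurable (fun q : ℝ × ℝ => sX (q.1 - q.2) - sY (q.1 - q.2)) :=
    (measurable_sX.comp (measurable_fst.sub measurable_snd)).sub
      (measurable_sY.comp (measurable_fst.sub measurable_snd))
  rw [integrable_prod_iff' hm.aestronglyMeasurable]
  have hi : ∀ z : ℝ, Integrable (fun x => sX (x - z) - sY (x - z)) := by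
    intro z; rw [lin_expand]; exact (comb_spec _).1
  constructor
  · exact ae_of_all _ hi
  · refine (integrable_const (54 : ℝ)).mono' ?_ ?_
    · exact (StronglyMeasurable.integral_prod_left (μ := volume)
        (f := fun (x : ℝ) (z : ℝ) => ‖sX (x - z) - sY (x - z)‖)
        hm.norm.stronglyMeasurable).aestronglyMeasurable
    · refine ae_of_all _ fun z => ?_
      simp only [Real.norm_eq_abs]
      rw [abs_of_nonneg (integral_nonneg fun x => abs_nonneg _)]
      have hb : ∀ x, |sX (x - z) - sY (x - z)| ≤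
          (Ico (z - 27) (z + 27)).indicator (fun _ => (1 : ℝ)) x := by
        intro x
        by_cases hx : x ∈ Ico (z - 27) (z + 27)
        · rw [indicator_of_mem hx, abs_le]
          have := sX_nonneg (x - z); have := sX_le_one (x - z)
          have := sY_nonneg (x - z); have := sY_le_one (x - z)
          constructor <;> linarith
        · rw [indicator_of_notMem hx]
          simp only [mem_Ico, not_and, not_lt] at hx
          rcases lt_or_ge x (z - 27) with h | h
          · rw [sX_lo (by linarith), sY_lo (by linarith)]; simp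
          · rw [sX_hi (by linarith [hx h]), sY_hi (by linarith [hx h])]; simp
      have h1 : ∫ x, |sX (x - z) - sY (x - z)| ≤
          ∫ x, (Ico (z - 27) (z + 27)).indicator (fun _ => (1 : ℝ)) x := by
        refine integral_mono (hi z).abs ?_ hb
        exact (integrable_indicator_iff measurableSet_Ico).2 (by simp)
      rw [integral_indicator measurableSet_Ico] at h1
      simp only [integral_const, MeasurableSet.univ, measureReal_restrict_apply, univ_inter,
        smul_eq_mul, mul_one] at h1
      rw [measureReal_def, Real.volume_Ico, ENNReal.toReal_ofReal (by linarith)] at h1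
      linarith

lemma inner_lin (x : ℝ) : ∫ z, (sX (x - z) - sY (x - z)) ∂ρ = GX ρ x - GY ρ x := by
  unfold GX GY
  rw [integral_sub (integrable_sX ρ x) (integrable_sY ρ x)]

lemma integrable_G_sub : Integrable (fun x => GX ρ x - GY ρ x) := by
  have h := (integrable_lin_prod ρ).integral_prod_left
  refine h.congr (ae_of_all _ fun x => ?_)
  exact inner_lin ρ x

lemma integral_G_sub : ∫ x, (GX ρ x - GY ρ x) = 0 := by
  have h := integral_integral_swap (μ := volume) (ν := ρ)
    (f := fun x z => sX (x - z) - sY (x - z)) (integrable_lin_prod ρ)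
  simp only [integral_lin, inner_lin, integral_zero] at h
  exact h

lemma integrable_K : Integrable (fun p : ℝ × ℝ => K p.1 p.2) (ρ.prod ρ) := by
  have h := (integrable_k2_prod ρ).integral_prod_right
  refine h.congr (ae_of_all _ fun p => ?_)
  exact integral_k2 p.1 p.2

end bilinear

section prob

variable (ρ : Measure ℝ) [IsProbabilityMeasure ρ]

lemma convX (x : ℝ) : (lawX ∗ ρ).real (Iic x) = 1 - GX ρ x := by
  rw [conv_real_Iic]
  simp only [lawX_real_Iic]
  rw [integral_sub (integrable_const _) (integrable_sX ρ x)]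
  simp [GX]

lemma convY (x : ℝ) : (lawY ∗ ρ).real (Iic x) = 1 - GY ρ x := by
  rw [conv_real_Iic]
  simp only [lawY_real_Iic]
  rw [integral_sub (integrable_const _) (integrable_sY ρ x)]
  simp [GY]

/-- From the inequality at `p = 1`: the noise is carried by a 54-separated set. -/
lemma ae_separated (h : 0 ≤ ∫ x, (GX ρ x ^ 2 - GY ρ x ^ 2)) :
    ∀ᵐ p : ℝ × ℝ ∂(ρ.prod ρ), K p.1 p.2 = 0 := by
  rw [integral_G_sq] at h
  have h1 : ∫ p : ℝ × ℝ, -K p.1 p.2 ∂(ρ.prod ρ) = 0 := by
    refine le_antisymm ?_ (integral_nonneg fun p => by simpa using K_nonpos p.1 p.2)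
    rw [integral_neg]; linarith
  have h2 := (integral_eq_zero_iff_of_nonneg
    (fun p => by simpa using K_nonpos p.1 p.2) (integrable_K ρ).neg).1 h1
  filter_upwards [h2] with p hp
  simp only [Pi.zero_apply, Pi.neg_apply] at hp
  linarith

lemma exists_atom (h : ∀ᵐ p : ℝ × ℝ ∂(ρ.prod ρ), K p.1 p.2 = 0) :
    ∃ z0 : ℝ, 0 < ρ {z0} ∧ ρ (Ioo (z0 - 54) z0) = 0 := by
  have h1 : ∀ᵐ z ∂ρ, ∀ᵐ w ∂ρ, K z w = 0 := Measure.ae_ae_of_ae_prod h
  have hcover : (⋃ j : ℤ, Ico ((j : ℝ)) (j + 1)) = univ := by
    ext x; simp only [mem_iUnion, mem_univ, iff_true]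
    exact ⟨⌊x⌋, Int.floor_le x, Int.lt_floor_add_one x⟩
  have h2 : ∃ j : ℤ, 0 < ρ (Ico ((j : ℝ)) (j + 1)) := by
    by_contra hcon
    push Not at hcon
    have h0 : ρ univ = 0 := by
      rw [← hcover]
      exact measure_iUnion_null fun j => le_antisymm (hcon j) bot_le
    simp at h0
  obtain ⟨j, hj⟩ := h2
  have h3 : ∃ z0 ∈ Ico ((j : ℝ)) (j + 1), ∀ᵐ w ∂ρ, K z0 w = 0 := by
    by_contra hcon
    have : ρ (Ico ((j : ℝ)) (j + 1)) = 0 := by
      refine measure_mono_null (fun z hz => ?_) h1
      intro hmem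
      exact hcon ⟨z, hz, hmem⟩
    rw [this] at hj
    exact lt_irrefl _ hj
  obtain ⟨z0, hz0, hK⟩ := h3
  have h4 : ∀ᵐ w ∂ρ, z0 = w ∨ 54 ≤ |z0 - w| := hK.mono fun w hw => K_eq_zero hw
  refine ⟨z0, ?_, ?_⟩
  · have hle : ρ (Ico ((j : ℝ)) (j + 1)) ≤ ρ {z0} := by
      refine measure_mono_ae ?_
      filter_upwards [h4] with w hw hwI
      rcases hw with hw | hw
      · exact hw.symm
      · exfalso
        have hwI' : w ∈ Ico ((j : ℝ)) (j + 1) := hwI
        have : |z0 - w| ≤ 1 := by
          rw [abs_le]; constructor <;> linarith [hz0.1, hz0.2, hwI'.1, hwI'.2]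
        linarith
    exact lt_of_lt_of_le hj hle
  · refine measure_mono_null (fun w hw => ?_) h4
    simp only [mem_compl_iff, mem_ofPred_eq, not_or, not_le]
    refine ⟨fun h => ?_, ?_⟩
    · rw [← h] at hw; exact lt_irrefl _ hw.2
    · rw [abs_lt]; constructor <;> linarith [hw.1, hw.2]

/-- the contradiction at the level `p = ρ(-∞, z0) + ρ{z0}/9` -/
lemma local_neg (z0 : ℝ) (hz0 : 0 < ρ {z0}) (hgap : ρ (Ioo (z0 - 54) z0) = 0)
    (hK : ∀ᵐ p : ℝ × ℝ ∂(ρ.prod ρ), K p.1 p.2 = 0) :
    ∃ p : ℝ, p ∈ Ioo (0 : ℝ) 1 ∧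
      ∫ x, ((max (p - (1 - GX ρ x)) 0) ^ 2 - (max (p - (1 - GY ρ x)) 0) ^ 2) < 0 := by
  set a : ℝ := ρ.real (Iio z0) with ha
  set r : ℝ := ρ.real {z0} with hr
  have hrpos : 0 < r := by
    rw [hr, measureReal_def]
    exact ENNReal.toReal_pos hz0.ne' (measure_ne_top _ _)
  have ha0 : 0 ≤ a := measureReal_nonneg
  have har : a + r ≤ 1 := by
    have h1 : ρ.real (Iio z0 ∪ {z0}) = a + r := by
      rw [measureReal_union (by simp) (measurableSet_singleton z0)]
    rw [← h1]
    exact measureReal_le_one
  -- the lower part of the noise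
  set σ : Measure ℝ := ρ.restrict (Iio z0) with hσ
  have hσuniv : σ.real univ = a := by
    rw [hσ, measureReal_restrict_apply MeasurableSet.univ, univ_inter]
  have hσae : ∀ᵐ z ∂σ, z ≤ z0 - 54 := by
    rw [hσ, ae_restrict_iff' measurableSet_Iio]
    have : ∀ᵐ z ∂ρ, z ∉ Ioo (z0 - 54) z0 := measure_eq_zero_iff_ae_notMem.1 hgap
    filter_upwards [this] with z hz hz2
    by_contra hcon
    push Not at hcon
    exact hz ⟨hcon, hz2⟩
  have hKσ : ∀ᵐ p : ℝ × ℝ ∂(σ.prod σ), K p.1 p.2 = 0 := by
    rw [hσ, Measure.prod_restrict]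
    exact ae_restrict_of_ae hK
  -- `G` for the lower part vanishes above `z0 - 27`
  have hGXz : ∀ x, z0 - 27 ≤ x → GX σ x = 0 := by
    intro x hx
    unfold GX
    refine integral_eq_zero_of_ae ?_
    filter_upwards [hσae] with z hz
    exact sX_hi (by linarith)
  have hGYz : ∀ x, z0 - 27 ≤ x → GY σ x = 0 := by
    intro x hx
    unfold GY
    refine integral_eq_zero_of_ae ?_
    filter_upwards [hσae] with z hz
    exact sY_hi (by linarith)
  have hGXnn : ∀ x, 0 ≤ GX σ x := fun x => integral_nonneg fun z => sX_nonneg _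
  have hGYnn : ∀ x, 0 ≤ GY σ x := fun x => integral_nonneg fun z => sY_nonneg _
  -- splitting of the integrals
  have hsplit : ∀ f : ℝ → ℝ, Integrable f ρ →
      ∫ z, f z ∂ρ = ∫ z, f z ∂σ + r * f z0 + ∫ z in Ioi z0, f z ∂ρ := by
    intro f hf
    have h1 : ∫ z, f z ∂ρ = ∫ z in Iic z0, f z ∂ρ + ∫ z in Ioi z0, f z ∂ρ := by
      rw [← integral_add_compl (measurableSet_Iic (a := z0)) hf, compl_Iic]
    have h2 : ∫ z in Iic z0, f z ∂ρ = ∫ z in Iio z0, f z ∂ρ + ∫ z in ({z0} : Set ℝ), f z ∂ρ := by
      rw [← Iio_union_Icc_eq_Iic (le_refl z0), Icc_self]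
      exact setIntegral_union (by simp) (measurableSet_singleton z0) hf.integrableOn
        hf.integrableOn
    rw [h1, h2, integral_singleton]
    simp [hr, hσ]
  have hiX : ∀ x, Integrable (fun z => 1 - sX (x - z)) ρ :=
    fun x => (integrable_const _).sub (integrable_sX ρ x)
  have hiY : ∀ x, Integrable (fun z => 1 - sY (x - z)) ρ :=
    fun x => (integrable_const _).sub (integrable_sY ρ x)
  have hFX : ∀ x, 1 - GX ρ x = (a - GX σ x) + r * (1 - sX (x - z0)) +
      ∫ z in Ioi z0, (1 - sX (x - z)) ∂ρ := by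
    intro x
    have h1 : ∫ z, (1 - sX (x - z)) ∂ρ = 1 - GX ρ x := by
      rw [integral_sub (integrable_const _) (integrable_sX ρ x)]; simp [GX]
    have h2 : ∫ z, (1 - sX (x - z)) ∂σ = a - GX σ x := by
      rw [integral_sub (integrable_const _) (integrable_sX σ x)]
      simp [GX, hσuniv]
    rw [← h1, hsplit _ (hiX x), h2]
  have hFY : ∀ x, 1 - GY ρ x = (a - GY σ x) + r * (1 - sY (x - z0)) +
      ∫ z in Ioi z0, (1 - sY (x - z)) ∂ρ := by
    intro x
    have h1 : ∫ z, (1 - sY (x - z)) ∂ρ = 1 - GY ρ x := by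
      rw [integral_sub (integrable_const _) (integrable_sY ρ x)]; simp [GY]
    have h2 : ∫ z, (1 - sY (x - z)) ∂σ = a - GY σ x := by
      rw [integral_sub (integrable_const _) (integrable_sY σ x)]
      simp [GY, hσuniv]
    rw [← h1, hsplit _ (hiY x), h2]
  have hupX : ∀ x, 0 ≤ ∫ z in Ioi z0, (1 - sX (x - z)) ∂ρ :=
    fun x => integral_nonneg fun z => by simpa using sX_le_one (x - z)
  have hupY : ∀ x, 0 ≤ ∫ z in Ioi z0, (1 - sY (x - z)) ∂ρ :=
    fun x => integral_nonneg fun z => by simpa using sY_le_one (x - z)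
  have hupX0 : ∀ x, x < z0 - 27 → ∫ z in Ioi z0, (1 - sX (x - z)) ∂ρ = 0 := by
    intro x hx
    refine integral_eq_zero_of_ae ?_
    filter_upwards [ae_restrict_mem measurableSet_Ioi] with z hz
    simp only [mem_Ioi] at hz
    rw [sX_lo (by linarith)]; simp
  have hupY0 : ∀ x, x < z0 - 16 → ∫ z in Ioi z0, (1 - sY (x - z)) ∂ρ = 0 := by
    intro x hx
    refine integral_eq_zero_of_ae ?_
    filter_upwards [ae_restrict_mem measurableSet_Ioi] with z hz
    simp only [mem_Ioi] at hz
    rw [sY_lo (by linarith)]; simp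
  refine ⟨a + r / 9, ⟨by positivity, by linarith⟩, ?_⟩
  -- pointwise identity
  have hpt : ∀ x, (max (a + r / 9 - (1 - GX ρ x)) 0) ^ 2 - (max (a + r / 9 - (1 - GY ρ x)) 0) ^ 2
      = (GX σ x ^ 2 - GY σ x ^ 2) + 2 * (r / 9) * (GX σ x - GY σ x)
        - (Ico (z0 - 27) (z0 - 16)).indicator (fun _ => (r / 9) ^ 2) x := by
    intro x
    rcases lt_or_ge x (z0 - 27) with h1 | h1
    · have hX : 1 - GX ρ x = a - GX σ x := by
        rw [hFX x, hupX0 x h1, sX_lo (by linarith)]; ring
      have hY : 1 - GY ρ x = a - GY σ x := by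
        rw [hFY x, hupY0 x (by linarith), sY_lo (by linarith)]; ring
      rw [hX, hY, indicator_of_notMem (fun h => by linarith [h.1])]
      have e1 : a + r / 9 - (a - GX σ x) = r / 9 + GX σ x := by ring
      have e2 : a + r / 9 - (a - GY σ x) = r / 9 + GY σ x := by ring
      rw [e1, e2, max_eq_left (by linarith [hGXnn x]), max_eq_left (by linarith [hGYnn x])]
      ring
    · have hX : a + r / 9 - (1 - GX ρ x) ≤ 0 := by
        rw [hFX x, hGXz x h1]
        have hs := sX_mid (y := x - z0) (by linarith)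
        have := hupX x
        nlinarith
      rw [max_eq_right hX, hGXz x h1, hGYz x h1]
      rcases lt_or_ge x (z0 - 16) with h2 | h2
      · have hY : 1 - GY ρ x = a := by
          rw [hFY x, hupY0 x h2, sY_lo (by linarith), hGYz x h1]; ring
        rw [hY, indicator_of_mem (by exact ⟨h1, h2⟩)]
        have e2 : a + r / 9 - a = r / 9 := by ring
        rw [e2, max_eq_left (by linarith)]
        ring
      · have hY : a + r / 9 - (1 - GY ρ x) ≤ 0 := by
          rw [hFY x, hGYz x h1]
          have hs := sY_mid (y := x - z0) (by linarith)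
          have := hupY x
          nlinarith
        rw [max_eq_right hY, indicator_of_notMem (fun h => by linarith [h.2])]
        ring
  simp only [hpt]
  have hI1 := integrable_G_sq σ
  have hI2 := (integrable_G_sub σ).const_mul (2 * (r / 9))
  have hI3 : Integrable (fun x => (Ico (z0 - 27) (z0 - 16)).indicator (fun _ => (r / 9) ^ 2) x) :=
    (integrable_indicator_iff measurableSet_Ico).2 (by simp)
  have hI12 : Integrable (fun x => (GX σ x ^ 2 - GY σ x ^ 2) +
      2 * (r / 9) * (GX σ x - GY σ x)) := hI1.add hI2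
  rw [integral_sub hI12 hI3, integral_add hI1 hI2, integral_const_mul, integral_G_sub,
    integral_G_sq, integral_indicator measurableSet_Ico]
  have hK0 : ∫ p : ℝ × ℝ, K p.1 p.2 ∂(σ.prod σ) = 0 := integral_eq_zero_of_ae hKσ
  rw [hK0]
  simp only [integral_const, MeasurableSet.univ, measureReal_restrict_apply, univ_inter,
    smul_eq_mul]
  rw [measureReal_def, Real.volume_Ico, ENNReal.toReal_ofReal (by linarith)]
  have : 0 < (r / 9) ^ 2 := by positivity
  nlinarith

end prob

/-- There are laws `μ` (of `X`) and `ν` (of `Y`) with finite mean such that `μ_{1:k}` agree for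
`k = 1, 2` and `μ_{1:3}` is larger for `X`, but no integrable independent noise `Z` gives
`Y + Z <_3^- X + Z`. -/
theorem result :
    ∃ μ ν : Measure ℝ, IsProbabilityMeasure μ ∧ IsProbabilityMeasure ν ∧
      Integrable (fun x : ℝ => x) μ ∧ Integrable (fun x : ℝ => x) ν ∧
      (∀ k : ℕ, 1 ≤ k → k ≤ 2 → meanMin μ k = meanMin ν k) ∧
      meanMin ν 3 < meanMin μ 3 ∧
      ∀ ρ : Measure ℝ, IsProbabilityMeasure ρ → Integrable (fun x : ℝ => x) ρ →
        ¬ InvDomLT 3 (ν ∗ ρ) (μ ∗ ρ) := by
  refine ⟨lawX, lawY, inferInstance, inferInstance, integrable_lawX, integrable_lawY, ?_, ?_, ?_⟩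
  · intro k hk1 hk2
    rw [meanMin_lawX k hk1, meanMin_lawY k hk1]
    have : k = 1 ∨ k = 2 := by omega
    rcases this with rfl | rfl <;> norm_num
  · rw [meanMin_lawX 3 (by norm_num), meanMin_lawY 3 (by norm_num)]
    norm_num
  · intro ρ hρ1 hρ2 hdom
    have hV := integrable_conv ρ lawX integrable_lawX hρ2
    have hW := integrable_conv ρ lawY integrable_lawY hρ2
    -- at `p = 1`
    have h1 := integral_powDiff_one_le_zero (lawY ∗ ρ) (lawX ∗ ρ) 1 hW hV hdom.1
    have hnn : ∀ x, 0 ≤ GX ρ x := fun x => integral_nonneg fun z => sX_nonneg _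
    have hnn' : ∀ x, 0 ≤ GY ρ x := fun x => integral_nonneg fun z => sY_nonneg _
    have hpd : (fun x => powDiff (lawY ∗ ρ) (lawX ∗ ρ) (1 + 1) 1 x) =
        fun x => -(1 / 2) * (GX ρ x ^ 2 - GY ρ x ^ 2) := by
      funext x
      unfold powDiff
      rw [convX, convY]
      have e1 : (1 : ℝ) - (1 - GY ρ x) = GY ρ x := by ring
      have e2 : (1 : ℝ) - (1 - GX ρ x) = GX ρ x := by ring
      rw [e1, e2, max_eq_left (hnn x), max_eq_left (hnn' x)]
      simp only [Nat.factorial]
      push_cast
      ring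
    rw [hpd, integral_const_mul] at h1
    have hsep := ae_separated ρ (by linarith)
    obtain ⟨z0, hz0, hgap⟩ := exists_atom ρ hsep
    obtain ⟨p, hp, hneg⟩ := local_neg ρ z0 hz0 hgap hsep
    have h2 := invCum_sub (lawY ∗ ρ) (lawX ∗ ρ) 1 hp.1.le hp.2.le hW hV
    have h3 := hdom.1 p hp
    have hpd2 : (fun x => powDiff (lawY ∗ ρ) (lawX ∗ ρ) (1 + 1) p x) =
        fun x => -(1 / 2) * ((max (p - (1 - GX ρ x)) 0) ^ 2 - (max (p - (1 - GY ρ x)) 0) ^ 2) := by
      funext x
      unfold powDiff
      rw [convX, convY]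
      simp only [Nat.factorial]
      push_cast
      ring
    rw [hpd2, integral_const_mul] at h2
    have h4 : invCum (lawY ∗ ρ) 3 p ≤ invCum (lawX ∗ ρ) 3 p := h3
    have h5 : invCum (lawY ∗ ρ) 3 p - invCum (lawX ∗ ρ) 3 p = _ := h2
    linarith

end Pool.Agent.Results.MP_dbe012_pr.ReversedDirectionFails
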